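import Pool.Agent.H43Z.ArgC

set_option autoImplicit false

namespace Pool.Agent.Results.MP_5acbe8_al.FiniteStrict

/-- The `n`-th order Arguesian law `D n` (vacuous, i.e. the trivial law, for `n ≤ 1`). -/
def D (α : Type) [Lattice α] (n : ℕ) : Prop :=
  ∀ (a b : ℕ → α) (h : (Finset.Icc 1 (n - 1)).Nonempty),
    a n ⊓ ((Finset.Icc 1 (n - 1)).inf' h (fun i => a i ⊔ b i) ⊔ b n) ≤
      a 1 ⊔ ((Finset.Icc 1 (n - 1)).sup' h
        (fun i => (a i ⊔ a (i + 1)) ⊓ (b i ⊔ b (i + 1))) ⊓ (b 1 ⊔ b n))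

/-- For every `n ≥ 1` there is a finite lattice satisfying `D n` but not `D (n + 1)`. -/
theorem result : ∀ n : ℕ, 1 ≤ n →
    ∃ (α : Type) (_ : Lattice α), Finite α ∧ D α n ∧ ¬ D α (n + 1) :=
  fun n hn => Pool.Agent.H43Z.Arg.main_finite n hn

end Pool.Agent.Results.MP_5acbe8_al.FiniteStrict
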